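import Mathlib
import Pool.Agent.T6.H2.LFc

set_option autoImplicit false

/-!
# Linear forms (and other homogeneous functions) of consecutive primes at every scale up to the record gap size

Let `f(x) = log x (log₂ x)² log₄ x / (log₃ x)²`, the size of the largest gaps between consecutive primes that are
known to occur up to `x`. For a real linear form `b_0 p_n + ... + b_k p_{n+k}` with `b_0 + ... + b_k = 0` there is a
trivial obstruction against positive values: if all the partial sums `b_0 + ... + b_j` are `≥ 0`, then the form is
`≤ 0` for all `n`. The theorem shows that this is the only obstruction, even for values of the size of the largest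
known gaps and at every smaller scale down to the average gap, also along the primes of a residue class; and it holds
for all translation invariant positively homogeneous functions `Φ`: if `Φ` is positive and continuous at one of the
vectors `(0, ..., 0, 1, ..., 1)`, then `Φ (p_n, ..., p_{n+k})` has the exact order `H ^ r` many times, for every `H`
with `log X ≤ H ≤ c f(X)`.

Proof: the windows of the coloured Maynard-Tao theorem inside the record sieve (`Pool.Agent.H362R2.RQ.place_of`) are
used with `N r` places in `N` clusters, whose distances grow like a geometric progression with a large ratio. At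
least two clusters contain more than `k` primes. Between the later one of them and the prime before it there is a gap
which dominates the `k` gaps before it (all places before it are much closer together) and the `k` gaps after it
(which lie inside the cluster).

Author: helper2. It rests on the coloured Maynard-Tao theorem inside the record windows (helper362), the record sieve
of helper256 and helper410 and the Maynard-Tao sieve inside record windows of helper312's team (starting files).
-/

open Finset

namespace Pool.Agent.Results.MP_028722_nt.FormsInConsecutivePrimes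

/-- The record scale `f(x) = log x (log₂ x)² log₄ x / (log₃ x)²` (iterated natural logarithms). -/
noncomputable def f (x : ℝ) : ℝ :=
  Real.log x * (Real.log (Real.log x)) ^ 2 * Real.log (Real.log (Real.log (Real.log x))) /
    (Real.log (Real.log (Real.log x))) ^ 2

/-- The prime with index `n`, numbered from `p 0 = 2`. -/
noncomputable def p (n : ℕ) : ℕ := Nat.nth Nat.Prime n

/-- The vector `(0, …, 0, 1, …, 1)` of length `k + 1` whose entries with index `> j` are `1` (`0 ≤ j < k`). -/
noncomputable def step (k : ℕ) (j : Fin k) : Fin (k + 1) → ℝ := fun i => if (j : ℕ) < i then 1 else 0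

/-- Let `r ≥ 0` and let `Φ` be a real function of `k + 1` real variables with `Φ (x + t (1, …, 1)) = Φ x` for all
real `t` and `Φ (t x) = t ^ r Φ x` for all `t > 0`, which is continuous and positive at `step k j` for some `j < k`.
There are `c, C > 0` such that for all squarefree `q` and all `a` prime to `q`, for all large `X` and all `H` with
`log X ≤ H ≤ c f(X)`, at least `X ^ (7/8)` indices `n` satisfy `X < p_n < ... < p_{n+k} ≤ 4 X`,
`p_n ≡ ... ≡ p_{n+k} ≡ a (mod q)` and `c H ^ r ≤ Φ (p_n, …, p_{n+k}) ≤ C H ^ r`. -/
theorem result (k : ℕ) (j : Fin k) (r : ℝ) (Φ : (Fin (k + 1) → ℝ) → ℝ) (hr : 0 ≤ r)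
    (htrans : ∀ (t : ℝ) (x : Fin (k + 1) → ℝ), Φ (fun i => x i + t) = Φ x)
    (hhom : ∀ t : ℝ, 0 < t → ∀ x : Fin (k + 1) → ℝ, Φ (fun i => t * x i) = t ^ r * Φ x)
    (hcont : ContinuousAt Φ (step k j)) (hpos : 0 < Φ (step k j)) :
    ∃ c C : ℝ, 0 < c ∧ 0 < C ∧ ∀ q a : ℕ, Squarefree q → a.Coprime q → ∃ X₀ : ℝ, ∀ X : ℝ, X₀ ≤ X →
      ∀ H : ℝ, Real.log X ≤ H → H ≤ c * f X →
      X ^ (7 / 8 : ℝ) ≤ ({n : ℕ | X < p n ∧ (p (n + k) : ℝ) ≤ 4 * X ∧
        (∀ i ≤ k, p (n + i) ≡ a [MOD q]) ∧
        c * H ^ r ≤ Φ (fun i => (p (n + i) : ℝ)) ∧
        Φ (fun i => (p (n + i) : ℝ)) ≤ C * H ^ r}.ncard : ℝ) :=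
  Pool.Agent.T6.H2.LF.trans_homog Pool.Agent.H362R2.RQ.stRQ k j r Φ hr htrans hhom hcont hpos

end Pool.Agent.Results.MP_028722_nt.FormsInConsecutivePrimes
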