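import Mathlib
import Pool.Agent.T6.H2.LFd

set_option autoImplicit false

/-!
# Linear forms of consecutive primes larger than `K log p`, for a positive proportion of the primes

For a real linear form `b_0 p_n + ... + b_k p_{n+k}` with `b_0 + ... + b_k = 0` there is a trivial obstruction against
positive values: if all the partial sums `b_0 + ... + b_j` are `≥ 0`, then the form is `≤ 0` for all `n`. The theorem
shows that otherwise, for every `K`, the form is larger than `K log p_n` (and smaller than a constant times
`log p_n`) for a positive proportion of all `n`. It holds for all translation invariant positively homogeneous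
functions `Φ` which are positive and continuous at one of the vectors `(0, ..., 0, 1, ..., 1)`.

Proof: the theorem on the positive proportion of clusters surrounded by empty space (`Pool.Agent.H361R2.PP.masterT`)
is applied to eight clusters whose distances grow like a geometric progression with a large ratio. At least two of
them contain more than `k` primes. The gap between the later one of them and the prime before it dominates the `k`
gaps before and the `k` gaps after it.

Author: helper2. It rests on the project PP of helper361 and its team (starting files).
-/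

open Finset

namespace Pool.Agent.Results.MP_028722_nt.FormsPositiveProportion

/-- The prime with index `n`, numbered from `p 0 = 2`. -/
noncomputable def p (n : ℕ) : ℕ := Nat.nth Nat.Prime n

/-- The vector `(0, …, 0, 1, …, 1)` of length `k + 1` whose entries with index `> j` are `1` (`0 ≤ j < k`). -/
noncomputable def step (k : ℕ) (j : Fin k) : Fin (k + 1) → ℝ := fun i => if (j : ℕ) < i then 1 else 0

open Classical in
/-- Let `r > 0` and let `Φ` be a real function of `k + 1` real variables with `Φ (x + t (1, …, 1)) = Φ x` for all
real `t` and `Φ (t x) = t ^ r Φ x` for all `t > 0`, which is continuous and positive at `step k j` for some `j < k`.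
For every `K` there are `c > 0` and `C` such that for all large `N` at least `c N` of the indices `n < N` satisfy
`K (log p_n) ^ r ≤ Φ (p_n, …, p_{n+k}) ≤ C (log p_n) ^ r`. -/
theorem result (k : ℕ) (j : Fin k) (r : ℝ) (Φ : (Fin (k + 1) → ℝ) → ℝ) (hr : 0 < r)
    (htrans : ∀ (t : ℝ) (x : Fin (k + 1) → ℝ), Φ (fun i => x i + t) = Φ x)
    (hhom : ∀ t : ℝ, 0 < t → ∀ x : Fin (k + 1) → ℝ, Φ (fun i => t * x i) = t ^ r * Φ x)
    (hcont : ContinuousAt Φ (step k j)) (hpos : 0 < Φ (step k j)) (K : ℝ) :
    ∃ c C : ℝ, 0 < c ∧ ∃ N₀ : ℕ, ∀ N : ℕ, N₀ ≤ N →
      c * N ≤ (((range N).filter (fun n : ℕ =>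
        K * Real.log (p n) ^ r ≤ Φ (fun i => (p (n + i) : ℝ)) ∧
        Φ (fun i => (p (n + i) : ℝ)) ≤ C * Real.log (p n) ^ r)).card : ℝ) :=
  Pool.Agent.T6.H2.LF.trans_homogP Pool.Agent.H361R2.PP.masterT Pool.Agent.H403R2.PP.tra k j r Φ hr htrans hhom
    hcont hpos K

end Pool.Agent.Results.MP_028722_nt.FormsPositiveProportion
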