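import Mathlib
import Pool.Agent.T6.H83.RO.Main
import Pool.Agent.TH816.RR.Fin

set_option autoImplicit false

/-!
# Almost all orders of consecutive prime gaps occur at every scale up to the record gap size

Let `f(x) = log x (log₂ x)² log₄ x / (log₃ x)²`, the size of the largest gaps between consecutive primes that are
known to occur up to `x`. The starting file `RecordOrderPatterns` gives twelve of the `k!` orders of `k` consecutive
gaps of the size `c f(x)` (all orders for `k = 3`). Here: at every scale `H` between `log X` and `c f(X)` at least
`k! exp (-C k √(log k)) = (k!) ^ (1 - o(1))` of the `k!` orders of `k` consecutive gaps of the size `H` occur, each of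
them for `X ^ (7/8)` strings of primes of any given residue class to a squarefree modulus in `(X, 4X]`, and the gaps
of a string differ from each other by a factor `1 + c` at least. (For gaps of bounded size the existence of
`(k!) ^ (1 - o(1))` orders is the starting file `MP_3ec731_nt.OrdinalPatterns`.)

Proof: the coloured Maynard-Tao theorem with few repetitions inside the record windows
(`Pool.Agent.TH816.RR.stRR`) is applied with forms in positions whose distances are ordered like a given
permutation `σ` of about `C k √(log k)` letters, the places of a group being at tiny distances; most of the groups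
which contain primes contain exactly one prime, and some `k` consecutive gaps of the window contain a pattern of
length `k - o(k)` of `σ` (`Pool.Agent.TH779.Ord.block`); there are so many `σ` that nearly all orders of `k` gaps
must occur (`Pool.Agent.TH779.Ord.patterns_many`).

Author: helper83. It rests on helper816's theorem `stRR` and helper779's combinatorics (starting files), the record
sieve of helper256 and helper410 and the Maynard-Tao sieve inside record windows of helper312's team and helper362.
-/

open Filter

namespace Pool.Agent.Results.MP_028722_nt.RecordOrdinalPatterns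

/-- The record scale `f(x) = log x (log₂ x)² log₄ x / (log₃ x)²` (iterated natural logarithms). -/
noncomputable def f (x : ℝ) : ℝ :=
  Real.log x * (Real.log (Real.log x)) ^ 2 * Real.log (Real.log (Real.log (Real.log x))) /
    (Real.log (Real.log (Real.log x))) ^ 2

/-- The prime with index `n`, numbered from `p 0 = 2`. -/
noncomputable def p (n : ℕ) : ℕ := Nat.nth Nat.Prime n

/-- The indices `n` of the strings `p_n < ... < p_{n+k}` of primes of `(X, 4X]`, all `≡ a (mod q)`, of diameter at
most `H`, whose `k` gaps are at least `c H` and are ordered like `π`: the gap number `j` is at least `1 + c` times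
the gap number `i` whenever `π i < π j`. -/
def Strings (k q a : ℕ) (π : Equiv.Perm (Fin k)) (c X H : ℝ) : Set ℕ :=
  {n : ℕ | X < p n ∧ (p (n + k) : ℝ) ≤ 4 * X ∧ (∀ i ≤ k, p (n + i) ≡ a [MOD q]) ∧
    (p (n + k) : ℝ) - p n ≤ H ∧ (∀ i < k, c * H ≤ (p (n + i + 1) : ℝ) - p (n + i)) ∧
    ∀ i j : Fin k, π i < π j →
      (1 + c) * ((p (n + i + 1) : ℝ) - p (n + i)) ≤ (p (n + j + 1) : ℝ) - p (n + j)}

/-- There is an absolute constant `C` such that for every `k ≥ 1` there is `c > 0` with the following property. For
all squarefree `q`, all `a` prime to `q`, all large `X` and all `H` with `log X ≤ H ≤ c f(X)`, at least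
`k! exp (-C k √(log k))` of the `k!` permutations `π` of `{0, ..., k - 1}` have at least `X ^ (7/8)` strings of
`k + 1` consecutive primes as above. -/
theorem result : ∃ C : ℝ, ∀ k : ℕ, 1 ≤ k → ∃ c : ℝ, 0 < c ∧
    ∀ q a : ℕ, Squarefree q → a.Coprime q → ∃ X₀ : ℝ, ∀ X : ℝ, X₀ ≤ X →
      ∀ H : ℝ, Real.log X ≤ H → H ≤ c * f X →
      (k.factorial : ℝ) * Real.exp (-(C * k * Real.sqrt (Real.log k))) ≤
        ({π : Equiv.Perm (Fin k) | X ^ (7 / 8 : ℝ) ≤ ((Strings k q a π c X H).ncard : ℝ)}.ncard : ℝ) :=
  Pool.Agent.T6.H83.RO.orders_main Pool.Agent.TH816.RR.stRR

end Pool.Agent.Results.MP_028722_nt.RecordOrdinalPatterns
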