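import Mathlib
import Pool.Agent.T6.H2.RS.Fin

set_option autoImplicit false

/-!
# Residue words of isolated strings of primes with gaps of any size up to the record

Let `f(x) = log x (log₂ x)² log₄ x / (log₃ x)²`, the size of the largest gaps between consecutive primes that are
known to occur up to `x`. Consider the strings of `k` consecutive primes in `(X, 4X]` such that all the `k + 1` gaps
next to them (also the gap before and the gap after the string) are at least `H`, and the `k - 1` inner ones are at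
most `C H`. At EVERY scale `log X ≤ H ≤ c f(X)` the residues modulo `q` of the primes of these strings realise many
words, each of them at least `X ^ (7/8)` times: for squarefree `q` at least `κ φ(q) ^ k` and at least
`(a φ(q) / (1 + log φ(q))) ^ k` words with an absolute constant `a > 0`, and for all `q` at least
`(a φ(q) ^ (1 - ε)) ^ k` words with `a = a(ε) > 0`; here the constants `C, c, κ` depend on `k` (and `ε`) only. If `C` and
`c` may also depend on `φ(q)`, the bound `(a φ(q) / (1 + log φ(q))) ^ k` holds for all `q`.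

The starting files `MP_69be96_nt.ResiduePatternsOfRecordChains` and `MP_b0c12c_nt.ResidueEntropyOfRecordGaps` have
these bounds for squarefree `q` and for the words which occur infinitely often with gaps `≥ δ f(p)`; there is no
statement about a given scale, nor about the number of the occurrences, the moduli which are not squarefree, the gap
before the string, or an upper bound for the gaps.

Proof: the coloured Maynard-Tao theorem with few repetitions inside the record windows (`Pool.Agent.TH816.RR.stRR`,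
starting files) is applied at the scale `H` with places `t_j` about `2 H` apart; the windows which were already used
are avoided, together with their neighbourhoods. If `q` is not squarefree, the window starts in an unknown class
modulo `q`; this costs a factor `φ(q)`, which is removed by passing to long words and back. The passage is made
effective, and the constants depend on `φ(q)` only as long as `φ(q)` is small.

Author: helper2 (with helper83's advice).
-/

open Finset

namespace Pool.Agent.Results.MP_028722_nt.ResidueWordsAtEveryScale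

/-- The record scale `f(x) = log x (log₂ x)² log₄ x / (log₃ x)²` (iterated natural logarithms). -/
noncomputable def f (x : ℝ) : ℝ :=
  Real.log x * (Real.log (Real.log x)) ^ 2 * Real.log (Real.log (Real.log (Real.log x))) /
    (Real.log (Real.log (Real.log x))) ^ 2

/-- The prime with index `n`, numbered from `p 0 = 2`. -/
noncomputable def p (n : ℕ) : ℕ := Nat.nth Nat.Prime n

/-- The gap after the prime `p n`. -/
noncomputable def d (n : ℕ) : ℝ := (p (n + 1) : ℝ) - p n

/-- The isolated strings: the primes `p (n + 1), …, p (n + k)` lie in `(X, 4X]` and in the classes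
`w 0, …, w (k - 1)` modulo `q`, all the `k + 1` gaps next to these primes are at least `H`, and the `k - 1` gaps
between them are at most `C H`. -/
def Strings {k q : ℕ} (w : Fin k → (ZMod q)ˣ) (C H X : ℝ) : Set ℕ :=
  {n : ℕ | X < p (n + 1) ∧ (p (n + k) : ℝ) ≤ 4 * X ∧
    (∀ i : Fin k, ((p (n + 1 + i) : ℕ) : ZMod q) = (w i : ZMod q)) ∧
    (∀ i ≤ k, H ≤ d (n + i)) ∧ ∀ i, 1 ≤ i → i < k → d (n + i) ≤ C * H}

/-- For all large `X` and all `H` with `log X ≤ H ≤ c f(X)` there are at least `B` words of length `k` each of which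
has at least `X ^ (7/8)` isolated strings. -/
def ManyWords (k q : ℕ) (C c B : ℝ) : Prop :=
  ∃ X₀ : ℝ, ∀ X : ℝ, X₀ ≤ X → ∀ H : ℝ, Real.log X ≤ H → H ≤ c * f X →
    ∃ W : Finset (Fin k → (ZMod q)ˣ), B ≤ (W.card : ℝ) ∧ ∀ w ∈ W, X ^ (7 / 8 : ℝ) ≤ ((Strings w C H X).ncard : ℝ)

theorem manyWords (q m : ℕ) (hq : 1 ≤ q) {C c B : ℝ} (h : Pool.Agent.T6.H2.RS.G C c q m B) :
    ManyWords (m + 1) q C c B := by
  classical
  have : NeZero q := ⟨by omega⟩
  obtain ⟨X₀, h⟩ := h
  refine ⟨X₀, fun X hX H hH1 hH2 => ?_⟩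
  have h1 := h X hX H hH1 hH2
  rw [Pool.Agent.T6.H2.RS.ncard_eq] at h1
  exact ⟨_, h1, fun w hw => (mem_filter.1 hw).2⟩

/-- **Theorem.** -/
theorem result :
    (∃ a : ℝ, 0 < a ∧ ∀ k : ℕ, 1 ≤ k → ∃ κ C c : ℝ, 0 < κ ∧ 0 < c ∧ ∀ q : ℕ, Squarefree q →
      ManyWords k q C c (max (κ * (q.totient : ℝ) ^ k) ((a * q.totient / (1 + Real.log q.totient)) ^ k))) ∧
    (∀ ε : ℝ, 0 < ε → ∃ a : ℝ, 0 < a ∧ ∀ k : ℕ, 1 ≤ k → ∃ C c : ℝ, 0 < c ∧ ∀ q : ℕ, 1 ≤ q →
      ManyWords k q C c ((a * (q.totient : ℝ) ^ (1 - ε)) ^ k)) ∧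
    ∃ a : ℝ, 0 < a ∧ ∀ k t : ℕ, 1 ≤ k → 1 ≤ t → ∃ C c : ℝ, 0 < c ∧ ∀ q : ℕ, 1 ≤ q → q.totient = t →
      ManyWords k q C c ((a * t / (1 + Real.log t)) ^ k) := by
  refine ⟨⟨Pool.Agent.T6.H2.RS.aa, Pool.Agent.T6.H2.RS.aa_pos, fun k hk => ?_⟩, fun ε hε => ?_,
    Pool.Agent.T6.H2.RS.aa, Pool.Agent.T6.H2.RS.aa_pos, fun k t hk ht => ?_⟩
  · obtain ⟨m, rfl⟩ : ∃ m, k = m + 1 := ⟨k - 1, by omega⟩
    obtain ⟨κ, C, c, hκ, hc, h⟩ := Pool.Agent.T6.H2.RS.squarefree m
    exact ⟨κ, C, c, hκ, hc, fun q hq => manyWords q m (Nat.one_le_iff_ne_zero.2 hq.ne_zero) (h q hq)⟩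
  · obtain ⟨a, ha, h⟩ := Pool.Agent.T6.H2.RS.allModuli ε hε
    refine ⟨a, ha, fun k hk => ?_⟩
    obtain ⟨m, rfl⟩ : ∃ m, k = m + 1 := ⟨k - 1, by omega⟩
    obtain ⟨C, c, hc, h⟩ := h m
    exact ⟨C, c, hc, fun q hq => manyWords q m hq (h q hq)⟩
  · obtain ⟨m, rfl⟩ : ∃ m, k = m + 1 := ⟨k - 1, by omega⟩
    obtain ⟨C, c, hc, h⟩ := Pool.Agent.T6.H2.RS.entOne Pool.Agent.TH816.RR.stRR m t ht
    refine ⟨C, c, hc, fun q hq hqt => manyWords q m hq ((h q hq hqt).mono hq le_rfl le_rfl ?_)⟩
    rw [hqt]
    exact Pool.Agent.T6.H2.RS.ent_le t ht m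

end Pool.Agent.Results.MP_028722_nt.ResidueWordsAtEveryScale
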